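import Mathlib
import Pool.Agent.Y999.TipRange

set_option autoImplicit false

open Set Filter Topology Complex Metric

namespace Pool.Agent.Results.MP_70d5b9_an.ExactTipAngles

open Pool.Agent.Results.MP_70d5b9_an.TipSupremum

/-- The set of all signed tip angles `φ_f`, `f ∈ S_α`, `f (-1) = ∞`. -/
def tipAngles (α : ℝ) : Set ℝ :=
  {φ | ∃ (f : ℂ → ℂ) (γ : ℝ → ℂ), IsSlitMap α f γ ∧ -Real.pi < φ ∧ φ < Real.pi ∧
    HasTipAt f (γ 0) φ}

/-- For every `0 ≤ α ≤ 1` the tip angles of the maps of `S_α` are exactly the `φ` with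
`|φ| ≤ α π` and `|φ| < π`. In particular the supremum `α π` of `|φ_f|` is attained for `α < 1` and
not attained for `α = 1`. -/
theorem result (α : ℝ) (h0 : 0 ≤ α) (h1 : α ≤ 1) :
    tipAngles α = {φ : ℝ | |φ| ≤ α * Real.pi ∧ |φ| < Real.pi} ∧
    tipSet α = {x : ℝ | 0 ≤ x ∧ x ≤ α * Real.pi ∧ x < Real.pi} ∧
    IsLUB (tipSet α) (α * Real.pi) ∧
    (α * Real.pi ∈ tipSet α ↔ α < 1) := by
  have hp := Real.pi_pos
  have hub : ∀ φ ∈ tipAngles α, |φ| ≤ α * Real.pi := by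
    rintro φ ⟨f, γ, hf, hφ1, hφ2, htip⟩
    rcases h0.eq_or_lt with h | h
    · subst h
      by_contra hcon
      push Not at hcon
      rw [zero_mul] at hcon
      have hlt : |φ| < Real.pi := abs_lt.2 ⟨hφ1, hφ2⟩
      set b : ℝ := |φ| / (2 * Real.pi) with hb
      have hb0 : 0 < b := by positivity
      have hb1 : b ≤ 1 := by
        rw [hb, div_le_one (by positivity)]
        linarith
      have h3 : |φ| ∈ tipSet b :=
        ⟨f, γ, φ, Pool.Agent.Y999.TipRange.isSlitMap_mono hb0.le hf, hφ1, hφ2, htip, rfl⟩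
      have h4 := upper_bound hb0 hb1 h3
      have h5 : b * Real.pi = |φ| / 2 := by rw [hb]; field_simp
      linarith
    · exact upper_bound h h1 ⟨f, γ, φ, hf, hφ1, hφ2, htip, rfl⟩
  have hex : ∀ φ : ℝ, |φ| ≤ α * Real.pi → |φ| < Real.pi → φ ∈ tipAngles α := by
    intro φ hφ hφπ
    obtain ⟨ha, hb⟩ := abs_lt.1 hφπ
    have e1 : -(2 * (-(φ / 2))) = φ := by ring
    refine ⟨fsp (-(φ / 2)), γsp (-(φ / 2)),
      Pool.Agent.Y999.TipRange.fsp_isSlitMap' (by linarith) (by linarith) ?_, ha, hb, ?_⟩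
    · rw [abs_neg, abs_div, abs_two]
      linarith
    · have := Pool.Agent.Y999.TipRange.fsp_hasTipAt' (ψ := -(φ / 2)) (by linarith) (by linarith)
      rwa [e1] at this
  have hA : tipAngles α = {φ : ℝ | |φ| ≤ α * Real.pi ∧ |φ| < Real.pi} := by
    ext φ
    constructor
    · intro h
      refine ⟨hub φ h, ?_⟩
      obtain ⟨f, γ, -, hφ1, hφ2, -⟩ := h
      exact abs_lt.2 ⟨hφ1, hφ2⟩
    · rintro ⟨h2, h3⟩
      exact hex φ h2 h3
  have hT : tipSet α = {x : ℝ | 0 ≤ x ∧ x ≤ α * Real.pi ∧ x < Real.pi} := by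
    ext x
    constructor
    · rintro ⟨f, γ, φ, hf, hφ1, hφ2, htip, rfl⟩
      exact ⟨abs_nonneg _, hub φ ⟨f, γ, hf, hφ1, hφ2, htip⟩, abs_lt.2 ⟨hφ1, hφ2⟩⟩
    · rintro ⟨h2, h3, h4⟩
      obtain ⟨f, γ, hf, hφ1, hφ2, htip⟩ := hex x (by rwa [abs_of_nonneg h2])
        (by rwa [abs_of_nonneg h2])
      exact ⟨f, γ, x, hf, hφ1, hφ2, htip, (abs_of_nonneg h2).symm⟩
  refine ⟨hA, hT, ?_, ?_⟩
  · rw [hT]
    constructor
    · rintro x ⟨-, h2, -⟩
      exact h2
    · intro B hB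
      rcases h1.lt_or_eq with h | rfl
      · exact hB ⟨by positivity, le_rfl, by nlinarith⟩
      · rw [one_mul]
        apply le_of_forall_lt
        intro c hc
        rw [one_mul] at hB
        have h2 : 0 ≤ max 0 ((c + Real.pi) / 2) := le_max_left _ _
        have h3 : max 0 ((c + Real.pi) / 2) < Real.pi := max_lt hp (by linarith)
        have h4 := hB (a := max 0 ((c + Real.pi) / 2)) ⟨h2, h3.le, h3⟩
        have h5 : (c + Real.pi) / 2 ≤ max 0 ((c + Real.pi) / 2) := le_max_right _ _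
        linarith
  · rw [hT]
    constructor
    · rintro ⟨-, -, h2⟩
      nlinarith
    · intro h2
      exact ⟨by positivity, le_rfl, by nlinarith⟩

end Pool.Agent.Results.MP_70d5b9_an.ExactTipAngles
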